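import Pool.Agent.H9.Kott2

namespace Pool.Agent.Results.MP_7f7e2f_an.Counter
open Pool.Agent.H9

variable (X Z : Type) [NormedAddCommGroup X] [NormedSpace ℝ X] [NormedAddCommGroup Z]
  [NormedSpace ℝ Z]

/-- The Kottman constant: supremum of the separations of sequences in the closed unit ball. -/
noncomputable def kottman : ℝ := sSup {r | ∃ x : ℕ → X, (∀ n, ‖x n‖ ≤ 1) ∧
  r = ⨅ p : {p : ℕ × ℕ // p.1 ≠ p.2}, ‖x p.1.1 - x p.1.2‖}

/-- The symmetric Kottman constant. -/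
noncomputable def symKottman : ℝ := sSup {r | ∃ x : ℕ → X, (∀ n, ‖x n‖ ≤ 1) ∧
  r = ⨅ p : {p : ℕ × ℕ // p.1 ≠ p.2}, min ‖x p.1.1 - x p.1.2‖ ‖x p.1.1 + x p.1.2‖}

/-- `Z` is (isometric to) a spreading model of `X`. -/
def IsSpreadingModel : Prop := ∃ (y : ℕ → X) (e : ℕ → Z), (∀ n, ‖y n‖ = 1) ∧
  (∀ φ : ℕ → ℕ, StrictMono φ → ¬CauchySeq (y ∘ φ)) ∧
  LinearIndependent ℝ e ∧ Dense (Submodule.span ℝ (Set.range e) : Set Z) ∧
  ∀ (k : ℕ) (a : Fin k → ℝ), ∀ ε > 0, ∃ N, ∀ n : Fin k → ℕ, StrictMono n → (∀ i, N ≤ n i) →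
    |‖∑ i, a i • y (n i)‖ - ‖∑ i, a i • e i‖| < ε

theorem result : ∃ (X Z : Type) (_ : NormedAddCommGroup X) (_ : NormedSpace ℝ X)
    (_ : CompleteSpace X) (_ : NormedAddCommGroup Z) (_ : NormedSpace ℝ Z) (_ : CompleteSpace Z),
    IsSpreadingModel X Z ∧ symKottman X < symKottman Z ∧ kottman X < kottman Z := by
  open Kott in
  have : Nonempty {p : ℕ × ℕ // p.1 ≠ p.2} := ⟨⟨(0, 1), zero_ne_one⟩⟩
  have h0 : (19 / 10 : ℝ) < 2 := by norm_num
  refine ⟨B →L[ℝ] ℝ, Hyper.V, inferInstance, inferInstance, inferInstance, inferInstance,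
    inferInstance, inferInstance, ⟨y, e, fun n => le_antisymm
      (LinearMap.mkContinuous_norm_le _ zero_le_one _) (by simpa [y_apply] using ev_le (y n) n),
      fun φ hφ h => ?_, LinearIndependent.of_pairwise_dual_eq_zero_one _ ev
        (fun i j h => (ev_e i j).trans (if_neg h)) fun i => (ev_e i i).trans (if_pos rfl), dense,
      fun k a ε hε => ⟨k, fun n h h' => by simpa [spread a n h h']⟩⟩,
    (Real.sSup_le ?_ (by norm_num)).trans_lt (h0.trans_le (le_csSup_of_le ⟨2, ?_⟩ ⟨z, z_le, rfl⟩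
      (le_ciInf fun p => le_min (z_sub p.2) (z_add _ _)))),
    (Real.sSup_le ?_ (by norm_num)).trans_lt (h0.trans_le (le_csSup_of_le ⟨2, ?_⟩ ⟨z, z_le, rfl⟩
      (le_ciInf fun p => z_sub p.2)))⟩
  · obtain ⟨N, hN⟩ := Metric.cauchySeq_iff'.1 h 1 one_pos
    refine (hN (N + 1) N.le_succ).not_ge (le_trans ?_ ((ev_le _ (φ N)).trans_eq
      (dist_eq_norm _ _).symm))
    simp [y_apply, (hφ N.lt_succ_self).ne']
  · rintro _ ⟨x, h, rfl⟩
    obtain ⟨n, m, h1, h2⟩ := close x h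
    exact ciInf_le_of_le ⟨0, Set.forall_mem_range.2 fun _ => by positivity⟩ ⟨(n, m), h1⟩
      ((min_le_left _ _).trans h2)
  · rintro _ ⟨x, h, rfl⟩
    exact ciInf_le_of_le ⟨0, Set.forall_mem_range.2 fun _ => by positivity⟩ ⟨(0, 1), zero_ne_one⟩
      ((min_le_left _ _).trans ((norm_sub_le_of_le (h _) (h _)).trans_eq one_add_one_eq_two))
  · rintro _ ⟨x, h, rfl⟩
    obtain ⟨n, m, h1, h2⟩ := close x h
    exact ciInf_le_of_le ⟨0, Set.forall_mem_range.2 fun _ => by positivity⟩ ⟨(n, m), h1⟩ h2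
  · rintro _ ⟨x, h, rfl⟩
    exact ciInf_le_of_le ⟨0, Set.forall_mem_range.2 fun _ => by positivity⟩ ⟨(0, 1), zero_ne_one⟩
      ((norm_sub_le_of_le (h _) (h _)).trans_eq one_add_one_eq_two)

end Pool.Agent.Results.MP_7f7e2f_an.Counter
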